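import Mathlib

set_option autoImplicit false

namespace Pool.Agent.Results.MP_b6be33_co.Disproof

/-- rows of the adjacency matrix, as bit masks -/
def row (u : Fin 9) : ℕ := ![170, 77, 354, 275, 456, 197, 54, 305, 156] u

/-- the graph on nine vertices -/
def G : SimpleGraph (Fin 9) where
  Adj u v := (row u).testBit v.val = true
  symm := ⟨by decide +kernel⟩
  loopless := ⟨by decide +kernel⟩

instance : DecidableRel G.Adj := fun u v => inferInstanceAs (Decidable ((row u).testBit v.val = true))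

/-- the antimorphism: two four-cycles and a fixed point -/
def P : Equiv.Perm (Fin 9) where
  toFun := ![0, 2, 3, 4, 1, 6, 7, 8, 5]
  invFun := ![0, 4, 1, 2, 3, 8, 5, 6, 7]
  left_inv := by decide
  right_inv := by decide

lemma P_anti : ∀ u v : Fin 9, Gᶜ.Adj (P u) (P v) ↔ G.Adj u v := by decide +kernel

/-- common neighbours -/
def cod (u v : Fin 9) : Finset (Fin 9) := Finset.univ.filter (fun w => G.Adj u w ∧ G.Adj v w)

/-- common neighbours in the complement -/
def cod' (u v : Fin 9) : Finset (Fin 9) := Finset.univ.filter (fun w => Gᶜ.Adj u w ∧ Gᶜ.Adj v w)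

lemma cod_bound : ∀ w : Fin 9, G.Adj 1 w → (cod 1 w).card ≠ 0 := by decide +kernel

lemma cod'_bound : ∃ w : Fin 9, Gᶜ.Adj 1 w ∧ (cod' 1 w).card = 0 := by decide +kernel

lemma map_cod (Q : G ≃g Gᶜ) (u v : Fin 9) : (cod' (Q u) (Q v)).card = (cod u v).card := by
  have : cod' (Q u) (Q v) = (cod u v).map Q.toEquiv.toEmbedding := by
    ext w
    simp only [cod, cod', Finset.mem_filter, Finset.mem_univ, true_and, Finset.mem_map_equiv]
    obtain ⟨x, rfl⟩ := Q.surjective w
    have : Q.toEquiv.symm (Q x) = x := Q.toEquiv.symm_apply_apply x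
    rw [this]
    constructor
    · rintro ⟨h1, h2⟩
      exact ⟨Q.map_adj_iff.1 h1, Q.map_adj_iff.1 h2⟩
    · rintro ⟨h1, h2⟩
      exact ⟨Q.map_adj_iff.2 h1, Q.map_adj_iff.2 h2⟩
  rw [this, Finset.card_map]

/-- Main theorem: for `k = 2` there is a regular self-complementary graph on `4 * k + 1` vertices
with a vertex in exactly `k * (k - 1)` triangles that is fixed by no antimorphism. -/
theorem result : ∃ (k : ℕ) (V : Type) (_ : Fintype V) (_ : DecidableEq V) (G : SimpleGraph V)
    (_ : DecidableRel G.Adj) (v : V),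
    Fintype.card V = 4 * k + 1 ∧ (∃ d, G.IsRegularOfDegree d) ∧ Nonempty (G ≃g Gᶜ) ∧
    ((G.cliqueFinset 3).filter (fun t => v ∈ t)).card = k * (k - 1) ∧
    ∀ P : G ≃g Gᶜ, P v ≠ v := by
  refine ⟨2, Fin 9, inferInstance, inferInstance, G, inferInstance, 1, rfl, ⟨4, ?_⟩, ⟨⟨P, ?_⟩⟩, ?_, ?_⟩
  · intro v
    revert v
    decide +kernel
  · intro a b
    exact P_anti a b
  · decide +kernel
  · intro Q hQ
    obtain ⟨w, hw, hw0⟩ := cod'_bound
    obtain ⟨x, rfl⟩ := Q.surjective w
    have h1 := map_cod Q 1 x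
    rw [hQ, hw0] at h1
    rw [← hQ] at hw
    exact cod_bound x (Q.map_adj_iff.1 hw) h1.symm

end Pool.Agent.Results.MP_b6be33_co.Disproof
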